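import Mathlib
import Pool.Agent.Run7.h92.JG.Stm

set_option autoImplicit false

/-! # Pieces `THP` and `THH` of the project `JG` (`MP_c5c797_nt`) -/

namespace Pool.Agent.Run7.h96.JG

open Complex MatrixGroups ModularGroup
open UpperHalfPlane hiding I
open Pool.Agent.Run7.h92.JG

theorem e_add (a b : ℂ) : e (a + b) = e a * e b := by
  unfold e
  rw [← Complex.exp_add]
  congr 1
  ring

theorem e_int (m : ℤ) : e (m : ℂ) = 1 := by
  unfold e
  rw [Complex.exp_eq_one_iff]
  exact ⟨m, by ring⟩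

theorem pr_add {n : ℕ} (v x : Fin n → ℝ) (z : Fin n → ℂ) : pr (v + x) z = pr v z + pr x z := by
  unfold pr
  rw [← Finset.sum_add_distrib]
  refine Finset.sum_congr rfl fun i _ => ?_
  simp only [Pi.add_apply]
  push_cast
  ring

theorem pr_sh {n : ℕ} (v x y : Fin n → ℝ) (τ : ℂ) (z : Fin n → ℂ) :
    pr v (sh τ z x y) = pr v z + (ip v x : ℝ) * τ + (ip v y : ℝ) := by
  unfold pr sh ip
  push_cast
  rw [Finset.sum_mul, ← Finset.sum_add_distrib, ← Finset.sum_add_distrib]
  refine Finset.sum_congr rfl fun i _ => ?_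
  ring

theorem ip_add {n : ℕ} (v x : Fin n → ℝ) :
    ip (v + x) (v + x) = ip v v + 2 * ip v x + ip x x := by
  unfold ip
  rw [Finset.mul_sum, ← Finset.sum_add_distrib, ← Finset.sum_add_distrib]
  refine Finset.sum_congr rfl fun i _ => ?_
  simp only [Pi.add_apply]
  ring

theorem ip_int {n : ℕ} {M : AddSubgroup (Fin n → ℝ)} (hM : ∀ x ∈ M, ∃ m : ℤ, ip x x = 2 * m)
    {x y : Fin n → ℝ} (hx : x ∈ M) (hy : y ∈ M) : ∃ m : ℤ, ip x y = m := by
  obtain ⟨a, ha⟩ := hM x hx
  obtain ⟨b, hb⟩ := hM y hy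
  obtain ⟨c, hc⟩ := hM (x + y) (M.add_mem hx hy)
  rw [ip_add, ha, hb] at hc
  exact ⟨c - a - b, by push_cast; linarith⟩

theorem tt_mem {n : ℕ} {M : AddSubgroup (Fin n → ℝ)} {v : Fin n → ℝ} (hv : v ∈ M) (τ : ℂ)
    (z : Fin n → ℂ) : tt M τ z v = e ((ip v v : ℝ) * τ / 2 + pr v z) := by
  unfold tt
  rw [Set.indicator_of_mem hv]

theorem tt_not {n : ℕ} {M : AddSubgroup (Fin n → ℝ)} {v : Fin n → ℝ} (hv : v ∉ M) (τ : ℂ)
    (z : Fin n → ℂ) : tt M τ z v = 0 := by
  unfold tt
  rw [Set.indicator_of_notMem hv]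

theorem coe_T (τ : ℍ) : ((T • τ : ℍ) : ℂ) = τ + 1 := by
  rw [UpperHalfPlane.modular_T_smul, UpperHalfPlane.coe_vadd]
  push_cast
  ring

theorem t_THP : S_THP := by
  intro n M hM
  refine ⟨?_, ?_, ?_⟩
  · intro τ z
    unfold th
    refine tsum_congr fun v => ?_
    by_cases hv : v ∈ M
    · rw [tt_mem hv, tt_mem hv, coe_T]
      obtain ⟨m, hm⟩ := hM v hv
      have h1 : ((ip v v : ℝ) : ℂ) * ((τ : ℂ) + 1) / 2 + pr v z
          = (((ip v v : ℝ) : ℂ) * (τ : ℂ) / 2 + pr v z) + (m : ℂ) := by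
        rw [hm]
        push_cast
        ring
      rw [h1, e_add, e_int, mul_one]
    · rw [tt_not hv, tt_not hv]
  · intro x hx y hy τ z
    unfold th
    rw [← (Equiv.addRight x).tsum_eq (tt M (τ : ℂ) z), ← tsum_mul_left]
    refine tsum_congr fun v => ?_
    simp only [Equiv.coe_addRight]
    by_cases hv : v ∈ M
    · rw [tt_mem hv, tt_mem (M.add_mem hv hx), ← e_add]
      obtain ⟨m, hm⟩ := ip_int hM hv hy
      have h1 : ((ip v v : ℝ) : ℂ) * (τ : ℂ) / 2 + pr v (sh (τ : ℂ) z x y)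
          = (((ip v v : ℝ) : ℂ) * (τ : ℂ) / 2 + pr v z + (ip v x : ℝ) * (τ : ℂ)) + (m : ℂ) := by
        rw [pr_sh, hm]
        push_cast
        ring
      rw [h1, e_add, e_int, mul_one]
      congr 1
      rw [ip_add, pr_add]
      push_cast
      ring
    · rw [tt_not hv, tt_not, mul_zero]
      intro h
      exact hv (by simpa using M.sub_mem h hx)
  · intro hs
    classical
    refine ⟨fun m l => if l ∈ M ∧ ip l l = 2 * (m : ℝ) then 1 else 0, ?_, ?_⟩
    · intro m l hl
      exact if_neg fun h => hl h.1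
    · intro τ z
      have hnn : ∀ l : Fin n → ℝ, 0 ≤ ip l l := fun l => by
        unfold ip
        exact Finset.sum_nonneg fun i _ => mul_self_nonneg _
      let g : (Fin n → ℝ) → ℕ × (Fin n → ℝ) := fun l => (⌊ip l l / 2⌋₊, l)
      have hg : Function.Injective g := by
        intro a b hab
        exact (Prod.ext_iff.mp hab).2
      have hfl : ∀ (l : Fin n → ℝ) (m : ℕ), ip l l = 2 * (m : ℝ) → ⌊ip l l / 2⌋₊ = m := by
        intro l m h
        rw [h, mul_div_cancel_left₀ _ (two_ne_zero), Nat.floor_natCast]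
      refine (hg.hasSum_iff ?_).1 ?_
      · rintro ⟨m, l⟩ hml
        have : ¬ (l ∈ M ∧ ip l l = 2 * (m : ℝ)) := by
          rintro ⟨-, h2⟩
          exact hml ⟨l, by simp only [g, hfl l m h2]⟩
        simp only [if_neg this, zero_mul]
      · have hs' : HasSum (tt M (τ : ℂ) z) (th M τ z) := (hs τ z).hasSum
        convert hs' using 1
        funext l
        simp only [Function.comp, g]
        by_cases hl : l ∈ M
        · obtain ⟨m, hm⟩ := hM l hl
          have hm0 : 0 ≤ m := by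
            have := hnn l
            rw [hm] at this
            have h2 : (0 : ℝ) ≤ (m : ℝ) := by linarith
            exact_mod_cast h2
          obtain ⟨k, rfl⟩ := Int.eq_ofNat_of_zero_le hm0
          have hm' : ip l l = 2 * (k : ℝ) := by rw [hm]; push_cast; ring
          have hk := hfl l k hm'
          have hif : (if l ∈ M ∧ ip l l = 2 * ((⌊ip l l / 2⌋₊ : ℕ) : ℝ) then (1 : ℂ) else 0) = 1 :=
            if_pos ⟨hl, by rw [hk]; exact hm'⟩
          rw [hif, one_mul, tt_mem hl, hk]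
          unfold e
          congr 2
          rw [hm']
          push_cast
          ring
        · rw [tt_not hl, if_neg fun h => hl h.1, zero_mul]

theorem diff_prod {E : Type*} [NormedAddCommGroup E] [NormedSpace ℂ E] {ι : Type*} (s : Finset ι)
    (f : ι → E → ℂ) (S : Set E) (h : ∀ i ∈ s, DifferentiableOn ℂ (f i) S) :
    DifferentiableOn ℂ (fun x => ∏ i ∈ s, f i x) S := by
  classical
  induction s using Finset.induction_on with
  | empty =>
    simp only [Finset.prod_empty]
    exact differentiableOn_const 1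
  | insert a s ha ih =>
    simp_rw [Finset.prod_insert ha]
    exact (h a (Finset.mem_insert_self a s)).mul (ih fun i hi => h i (Finset.mem_insert_of_mem hi))

theorem t_THH : S_TPROD → S_VT → S_THH := by
  intro hP hV n hn hev
  have key : ∀ (a b : ℕ) (i : Fin n), DifferentiableOn ℂ
      (fun p : ℂ × (Fin n → ℂ) => vt a b p.1 (p.2 i)) {p | 0 < p.1.im} := by
    intro a b i
    have h1 : DifferentiableOn ℂ (fun p : ℂ × (Fin n → ℂ) =>
        e ((a : ℂ) ^ 2 * p.1 / 8 + a / 2 * (p.2 i + b / 2)) *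
          jacobiTheta₂ (p.2 i + b / 2 + a * p.1 / 2) p.1) {p | 0 < p.1.im} := by
      intro p hp
      have hpi : DifferentiableAt ℂ (fun p : ℂ × (Fin n → ℂ) => p.2 i) p :=
        ((ContinuousLinearMap.proj (R := ℂ) (φ := fun _ : Fin n => ℂ) i).comp
          (ContinuousLinearMap.snd ℂ ℂ (Fin n → ℂ))).differentiableAt
      have hp1 : DifferentiableAt ℂ (fun p : ℂ × (Fin n → ℂ) => p.1) p := differentiableAt_fst
      refine (DifferentiableAt.mul ?_ ?_).differentiableWithinAt
      · unfold e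
        refine DifferentiableAt.cexp ?_
        refine DifferentiableAt.const_mul ?_ _
        have q1 : DifferentiableAt ℂ (fun p : ℂ × (Fin n → ℂ) => (a : ℂ) ^ 2 * p.1 / 8) p := by
          simp only [div_eq_mul_inv]
          exact (hp1.const_mul _).mul_const _
        exact q1.add ((hpi.add_const _).const_mul _)
      · have hj := (hasFDerivAt_jacobiTheta₂ (p.2 i + b / 2 + a * p.1 / 2) hp).differentiableAt
        have q2 : DifferentiableAt ℂ (fun p : ℂ × (Fin n → ℂ) => (a : ℂ) * p.1 / 2) p := by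
          simp only [div_eq_mul_inv]
          exact (hp1.const_mul _).mul_const _
        have hin : DifferentiableAt ℂ (fun p : ℂ × (Fin n → ℂ) =>
            ((p.2 i + b / 2 + a * p.1 / 2, p.1) : ℂ × ℂ)) p :=
          ((hpi.add_const _).add q2).prodMk hp1
        exact DifferentiableAt.comp p (f := fun p : ℂ × (Fin n → ℂ) =>
            ((p.2 i + b / 2 + a * p.1 / 2, p.1) : ℂ × ℂ)) hj hin
    exact h1.congr fun p hp => (hV a b p.1 (p.2 i) hp).2
  have key2 : ∀ (a b : ℕ), DifferentiableOn ℂ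
      (fun p : ℂ × (Fin n → ℂ) => ∏ i, vt a b p.1 (p.2 i)) {p | 0 < p.1.im} := by
    intro a b
    exact diff_prod Finset.univ _ _ fun i _ => key a b i
  have h2 : DifferentiableOn ℂ (fun p : ℂ × (Fin n → ℂ) =>
      1 / 2 * (∏ i, vt 0 0 p.1 (p.2 i) + ∏ i, vt 0 1 p.1 (p.2 i) +
      ∏ i, vt 1 0 p.1 (p.2 i) + ∏ i, vt 1 1 p.1 (p.2 i))) {p | 0 < p.1.im} :=
    ((((key2 0 0).add (key2 0 1)).add (key2 1 0)).add (key2 1 1)).const_mul _
  refine h2.congr fun p hp => ?_
  have hc : ((ofComplex p.1 : ℍ) : ℂ) = p.1 := by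
    rw [UpperHalfPlane.ofComplex_apply_of_im_pos hp]
  rw [hP n hn hev, hc]

end Pool.Agent.Run7.h96.JG
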